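import Pool.Agent.Helper79.GR.GA

/-!
# PG, block I1: a norm of the plane is a maximum of finitely many linear functionals or there are
`N` lattice directions without common faces, for every `N`

`u` is a positive sublinear function on the plane, `B` the polar set (the vectors `p` with
`pr p x ≤ u x` for all `x`), `E` the set of its extreme points.  If `E` is finite then `u` is the
maximum of the functionals `pr p`, `p ∈ E`.  If `E` is infinite then one of the four half planes
`± p 0 > 0`, `± p 1 > 0` contains infinitely many extreme points; for three of them, `e, f, g` in the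
order of their slopes there is a lattice direction `w` such that all supporting functionals at `w`
are strictly between `e` and `g` (`between`), and for two lattice directions with an extreme point
between the corresponding cones there is no common neighbour (`no_share`).
-/

set_option autoImplicit false

namespace Pool.Agent.Helper87.PG

open Pool.Agent.Helper79.GR Filter

/-- the pairing -/
def pr (p x : Fin 2 → ℝ) : ℝ := p 0 * x 0 + p 1 * x 1

/-- the determinant -/
def dt (p q : Fin 2 → ℝ) : ℝ := p 0 * q 1 - p 1 * q 0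

/-- positive sublinear functions on the plane -/
structure Su (u : (Fin 2 → ℝ) → ℝ) : Prop where
  add : ∀ x y, u (x + y) ≤ u x + u y
  smul : ∀ t : ℝ, 0 ≤ t → ∀ x, u (t • x) = t * u x
  pos : ∀ x, x ≠ 0 → 0 < u x

/-- the polar set -/
def Po (u : (Fin 2 → ℝ) → ℝ) : Set (Fin 2 → ℝ) := {p | ∀ x, pr p x ≤ u x}

variable {u : (Fin 2 → ℝ) → ℝ}

theorem pr_add_left (p q x : Fin 2 → ℝ) : pr (p + q) x = pr p x + pr q x := by
  simp only [pr, Pi.add_apply]; ring

theorem pr_smul_left (t : ℝ) (p x : Fin 2 → ℝ) : pr (t • p) x = t * pr p x := by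
  simp only [pr, Pi.smul_apply, smul_eq_mul]; ring

theorem pr_add_right (p x y : Fin 2 → ℝ) : pr p (x + y) = pr p x + pr p y := by
  simp only [pr, Pi.add_apply]; ring

theorem Su.nn (h : Su u) (x : Fin 2 → ℝ) : 0 ≤ u x := by
  by_cases hx : x = 0
  · subst hx
    have := h.smul 0 le_rfl 0
    rw [zero_smul, zero_mul] at this
    exact this.ge
  · exact (h.pos x hx).le

theorem Su.zero_mem (h : Su u) : (0 : Fin 2 → ℝ) ∈ Po u := by
  intro x
  simp only [pr, Pi.zero_apply, zero_mul, add_zero]
  exact h.nn x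

theorem Po_convex : Convex ℝ (Po u) := by
  intro p hp q hq a b ha hb hab x
  rw [pr_add_left, pr_smul_left, pr_smul_left]
  calc a * pr p x + b * pr q x ≤ a * u x + b * u x :=
        add_le_add (mul_le_mul_of_nonneg_left (hp x) ha) (mul_le_mul_of_nonneg_left (hq x) hb)
    _ = u x := by rw [← add_mul, hab, one_mul]

theorem pr_cont (x : Fin 2 → ℝ) : Continuous fun p : Fin 2 → ℝ => pr p x := by
  unfold pr
  fun_prop

theorem Po_closed : IsClosed (Po u) := by
  have : Po u = ⋂ x, {p | pr p x ≤ u x} := by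
    ext p
    simp [Po]
  rw [this]
  exact isClosed_iInter fun x => isClosed_le (pr_cont x) continuous_const

/-- a bound for the polar set -/
theorem Po_bdd (u : (Fin 2 → ℝ) → ℝ) : ∃ R : ℝ, 0 ≤ R ∧ ∀ p ∈ Po u, ∀ i, |p i| ≤ R := by
  refine ⟨|u (Pi.single 0 1)| + |u (-Pi.single 0 1)| + |u (Pi.single 1 1)|
    + |u (-Pi.single 1 1)|, by positivity, ?_⟩
  intro p hp i
  have h1 := hp (Pi.single 0 1)
  have h2 := hp (-Pi.single 0 1)
  have h3 := hp (Pi.single 1 1)
  have h4 := hp (-Pi.single 1 1)
  simp only [pr, Pi.neg_apply, Pi.single_eq_same, mul_one, mul_neg] at h1 h2 h3 h4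
  rw [Pi.single_eq_of_ne (by decide)] at h1 h2 h3 h4
  have a1 := le_abs_self (u (Pi.single 0 1))
  have a2 := le_abs_self (u (-Pi.single 0 1))
  have a3 := le_abs_self (u (Pi.single 1 1))
  have a4 := le_abs_self (u (-Pi.single 1 1))
  have b1 := abs_nonneg (u (Pi.single 0 1))
  have b2 := abs_nonneg (u (-Pi.single 0 1))
  have b3 := abs_nonneg (u (Pi.single 1 1))
  have b4 := abs_nonneg (u (-Pi.single 1 1))
  fin_cases i
  · show |p 0| ≤ _
    rw [abs_le]; constructor <;> linarith
  · show |p 1| ≤ _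
    rw [abs_le]; constructor <;> linarith

theorem Po_compact : IsCompact (Po u) := by
  obtain ⟨R, -, hR⟩ := Po_bdd u
  refine IsCompact.of_isClosed_subset (isCompact_Icc (a := fun _ : Fin 2 => -R)
    (b := fun _ : Fin 2 => R)) Po_closed ?_
  intro p hp
  exact ⟨fun i => (abs_le.1 (hR p hp i)).1, fun i => (abs_le.1 (hR p hp i)).2⟩

/-- a common supporting functional -/
theorem Su.supp (h : Su u) (x w : Fin 2 → ℝ) (hsh : u x + u w ≤ u (x + w)) :
    ∃ p ∈ Po u, pr p x = u x ∧ pr p w = u w := by
  obtain ⟨ρ, h1, h2, h3⟩ := exists_support u h.add h.smul h.nn x w hsh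
  have key : ∀ y : Fin 2 → ℝ, pr (fun i => ρ (Pi.single i 1)) y = ρ y := by
    intro y
    have hy : y = y 0 • Pi.single 0 1 + y 1 • Pi.single 1 1 := by
      funext i
      fin_cases i <;> simp
    conv_rhs => rw [hy]
    rw [map_add, map_smul, map_smul]
    simp only [pr, smul_eq_mul]
    ring
  exact ⟨fun i => ρ (Pi.single i 1), fun y => (key y).trans_le (h1 y), (key x).trans h2,
    (key w).trans h3⟩

/-- every face has an extreme point -/
theorem Su.ext (h : Su u) (x : Fin 2 → ℝ) : ∃ p ∈ (Po u).extremePoints ℝ, pr p x = u x := by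
  set F : Set (Fin 2 → ℝ) := {p | p ∈ Po u ∧ pr p x = u x} with hF
  have hFc : IsCompact F := Po_compact.of_isClosed_subset
    (Po_closed.inter (isClosed_eq (pr_cont x) continuous_const)) fun p hp => hp.1
  have hne : F.Nonempty := by
    have h0 : u x + u 0 ≤ u (x + 0) := by
      have := h.smul 0 le_rfl 0
      rw [zero_smul, zero_mul] at this
      rw [this, add_zero, add_zero]
    obtain ⟨p, hp, hpx, -⟩ := h.supp x 0 h0
    exact ⟨p, hp, hpx⟩
  obtain ⟨p, hp⟩ := hFc.extremePoints_nonempty hne
  have hext : IsExtreme ℝ (Po u) F := by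
    refine ⟨fun p hp => hp.1, ?_⟩
    rintro p hp q hq z hz ⟨s, t, hs, ht, hst, rfl⟩
    have hz2 := hz.2
    rw [pr_add_left, pr_smul_left, pr_smul_left] at hz2
    have h1 := hp x
    have h2 := hq x
    have h3 : u x = s * u x + t * u x := by rw [← add_mul, hst, one_mul]
    refine ⟨hp, le_antisymm h1 ?_⟩
    by_contra hlt
    push Not at hlt
    have h4 : s * pr p x < s * u x := mul_lt_mul_of_pos_left hlt hs
    have h5 : t * pr q x ≤ t * u x := mul_le_mul_of_nonneg_left h2 ht.le
    linarith
  exact ⟨p, hext.extremePoints_subset_extremePoints hp, (extremePoints_subset hp).2⟩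

/-- extreme points are not inside a triangle with the vertex `0` -/
theorem Su.tri (h : Su u) {e p q : Fin 2 → ℝ} (he : e ∈ (Po u).extremePoints ℝ) (hp : p ∈ Po u)
    (hq : q ∈ Po u) {α β : ℝ} (hα : 0 < α) (hβ : 0 < β) (hαβ : α + β ≤ 1)
    (hepq : e = α • p + β • q) (he0 : e ≠ 0) : e = p ∧ e = q := by
  rcases hαβ.lt_or_eq with hlt | heq
  · exfalso
    apply he0
    have hm : (α / (α + β)) • p + (β / (α + β)) • q ∈ Po u := by
      refine Po_convex hp hq (by positivity) (by positivity) ?_
      field_simp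
    have h1 := he.2 hm h.zero_mem (by
      refine ⟨α + β, 1 - (α + β), by positivity, by linarith, by ring, ?_⟩
      rw [smul_zero, add_zero, smul_add, smul_smul, smul_smul, hepq]
      congr 2 <;> field_simp)
    have h2 := he.2 h.zero_mem hm (by
      refine ⟨1 - (α + β), α + β, by linarith, by positivity, by ring, ?_⟩
      rw [smul_zero, zero_add, smul_add, smul_smul, smul_smul, hepq]
      congr 2 <;> field_simp)
    exact h2.symm
  · have h1 := he.2 hp hq ⟨α, β, hα, hβ, heq, hepq.symm⟩
    have h2 := he.2 hq hp ⟨β, α, hβ, hα, by linarith, by rw [add_comm]; exact hepq.symm⟩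
    exact ⟨h1.symm, h2.symm⟩

/-- extreme points are not inside a segment from `0` -/
theorem Su.ray (h : Su u) {e z : Fin 2 → ℝ} (he : e ∈ (Po u).extremePoints ℝ) (hz : z ∈ Po u)
    {t : ℝ} (ht : 1 < t) (hze : z = t • e) : e = 0 := by
  have h2 := he.2 h.zero_mem hz (by
    refine ⟨1 - 1 / t, 1 / t, ?_, by positivity, by ring, ?_⟩
    · have : 1 / t < 1 := by
        rw [div_lt_one (by linarith)]
        exact ht
      linarith
    · rw [smul_zero, zero_add, hze, smul_smul]
      have : 1 / t * t = 1 := by field_simp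
      rw [this, one_smul])
  exact h2.symm

/-- a vector in the plane is a combination of two independent ones -/
theorem comb (e g p : Fin 2 → ℝ) (h : dt e g ≠ 0) :
    p = (dt p g / dt e g) • e + (dt e p / dt e g) • g := by
  funext i
  simp only [Pi.add_apply, Pi.smul_apply, smul_eq_mul]
  field_simp
  fin_cases i <;> simp only [dt, Fin.zero_eta, Fin.mk_one, Fin.isValue] <;> ring

/-- a lattice direction whose supporting functionals are strictly between `e` and `g` -/
theorem Su.between (h : Su u) {e f g : Fin 2 → ℝ} (he : e ∈ (Po u).extremePoints ℝ)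
    (hf : f ∈ (Po u).extremePoints ℝ) (hg : g ∈ (Po u).extremePoints ℝ) (hef : 0 < dt e f)
    (hfg : 0 < dt f g) (heg : 0 < dt e g) :
    ∃ w : V 2, ∀ p ∈ Po u, pr p (rv w) = u (rv w) → 0 < dt e p ∧ 0 < dt p g := by
  have he0 : e ≠ 0 := by
    rintro rfl
    simp [dt] at hef
  have hf0 : f ≠ 0 := by
    rintro rfl
    simp [dt] at hef
  have hg0 : g ≠ 0 := by
    rintro rfl
    simp [dt] at hfg
  set w0 : Fin 2 → ℝ := ![g 1 - e 1, -(g 0 - e 0)] with hw0
  have hw : ∀ p, pr p w0 = dt p g + dt e p := by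
    intro p
    simp only [pr, hw0, dt, Matrix.cons_val_zero, Matrix.cons_val_one]
    ring
  -- the point `f` is beyond the line through `e`, `g`
  have hfc : dt e g < pr f w0 := by
    by_contra hcon
    push Not at hcon
    rw [hw] at hcon
    have h1 := h.tri hf he.1 hg.1 (α := dt f g / dt e g) (β := dt e f / dt e g) (by positivity)
      (by positivity) (by rw [← add_div, div_le_one heg]; exact hcon) (comb e g f heg.ne') hf0
    rw [h1.2] at hfg
    simp [dt, mul_comm] at hfg
  -- the points outside the cone are not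
  have hout : ∀ p ∈ Po u, ¬ (0 < dt e p ∧ 0 < dt p g) → pr p w0 ≤ dt e g := by
    intro p hp hnot
    by_contra hcon
    push Not at hcon
    by_cases hpg : 0 < dt p g
    · have hep : dt e p ≤ 0 := by
        by_contra hh
        push Not at hh
        exact hnot ⟨hh, hpg⟩
      -- the segment from `f` to `p` meets the ray of `e`
      set t : ℝ := dt e f / (dt e f - dt e p) with ht
      have hden : 0 < dt e f - dt e p := by linarith
      have ht0 : 0 < t := div_pos hef hden
      have ht1 : t ≤ 1 := by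
        rw [ht, div_le_one hden]
        linarith
      set z : Fin 2 → ℝ := (1 - t) • f + t • p with hz
      have hzP : z ∈ Po u := Po_convex hf.1 hp (by linarith) ht0.le (by ring)
      have hez : dt e z = 0 := by
        have h1 : dt e z = (1 - t) * dt e f + t * dt e p := by
          simp only [dt, hz, Pi.add_apply, Pi.smul_apply, smul_eq_mul]
          ring
        rw [h1, ht]
        field_simp
        ring
      have hzw : dt e g < pr z w0 := by
        rw [hz, pr_add_left, pr_smul_left, pr_smul_left]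
        have h1 : (1 - t) * dt e g ≤ (1 - t) * pr f w0 :=
          mul_le_mul_of_nonneg_left hfc.le (by linarith)
        have h2 : t * dt e g < t * pr p w0 := mul_lt_mul_of_pos_left hcon ht0
        linarith
      have hzc := comb e g z heg.ne'
      rw [hez, zero_div, zero_smul, add_zero] at hzc
      rw [hw, hez, add_zero] at hzw
      exact he0 (h.ray he hzP (t := dt z g / dt e g) (by rw [lt_div_iff₀ heg]; linarith) hzc)
    · push Not at hpg
      set t : ℝ := dt f g / (dt f g - dt p g) with ht
      have hden : 0 < dt f g - dt p g := by linarith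
      have ht0 : 0 < t := div_pos hfg hden
      have ht1 : t ≤ 1 := by
        rw [ht, div_le_one hden]
        linarith
      set z : Fin 2 → ℝ := (1 - t) • f + t • p with hz
      have hzP : z ∈ Po u := Po_convex hf.1 hp (by linarith) ht0.le (by ring)
      have hzg : dt z g = 0 := by
        have h1 : dt z g = (1 - t) * dt f g + t * dt p g := by
          simp only [dt, hz, Pi.add_apply, Pi.smul_apply, smul_eq_mul]
          ring
        rw [h1, ht]
        field_simp
        ring
      have hzw : dt e g < pr z w0 := by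
        rw [hz, pr_add_left, pr_smul_left, pr_smul_left]
        have h1 : (1 - t) * dt e g ≤ (1 - t) * pr f w0 :=
          mul_le_mul_of_nonneg_left hfc.le (by linarith)
        have h2 : t * dt e g < t * pr p w0 := mul_lt_mul_of_pos_left hcon ht0
        linarith
      have hzc := comb e g z heg.ne'
      rw [hzg, zero_div, zero_smul, zero_add] at hzc
      rw [hw, hzg, zero_add] at hzw
      exact hg0 (h.ray hg hzP (t := dt e z / dt e g) (by rw [lt_div_iff₀ heg]; linarith) hzc)
  -- a lattice direction near `w0`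
  obtain ⟨R, hR0, hR⟩ := Po_bdd u
  obtain ⟨n, hn⟩ := exists_nat_gt (4 * R / (pr f w0 - dt e g))
  have hgap : 0 < pr f w0 - dt e g := by linarith
  rw [div_lt_iff₀ hgap] at hn
  refine ⟨fun i => ⌊(n : ℝ) * w0 i⌋, ?_⟩
  have hnear : ∀ p ∈ Po u, |pr p (rv fun i => ⌊(n : ℝ) * w0 i⌋) - n * pr p w0| ≤ 2 * R := by
    intro p hp
    have h1 : pr p (rv fun i => ⌊(n : ℝ) * w0 i⌋) - n * pr p w0
        = -(p 0 * Int.fract ((n : ℝ) * w0 0) + p 1 * Int.fract ((n : ℝ) * w0 1)) := by
      simp only [pr, rv, Int.fract]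
      ring
    rw [h1, abs_neg]
    have h2 : |p 0 * Int.fract ((n : ℝ) * w0 0)| ≤ R := by
      rw [abs_mul, abs_of_nonneg (Int.fract_nonneg ((n : ℝ) * w0 0))]
      calc |p 0| * Int.fract ((n : ℝ) * w0 0) ≤ R * 1 :=
            mul_le_mul (hR p hp 0) (Int.fract_lt_one _).le (Int.fract_nonneg _) hR0
        _ = R := mul_one R
    have h3 : |p 1 * Int.fract ((n : ℝ) * w0 1)| ≤ R := by
      rw [abs_mul, abs_of_nonneg (Int.fract_nonneg ((n : ℝ) * w0 1))]
      calc |p 1| * Int.fract ((n : ℝ) * w0 1) ≤ R * 1 :=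
            mul_le_mul (hR p hp 1) (Int.fract_lt_one _).le (Int.fract_nonneg _) hR0
        _ = R := mul_one R
    calc |p 0 * Int.fract ((n : ℝ) * w0 0) + p 1 * Int.fract ((n : ℝ) * w0 1)|
        ≤ |p 0 * Int.fract ((n : ℝ) * w0 0)| + |p 1 * Int.fract ((n : ℝ) * w0 1)| :=
          abs_add_le _ _
      _ ≤ 2 * R := by linarith
  intro p hp hpw
  by_contra hnot
  have h1 := hout p hp hnot
  have h2 := (abs_le.1 (hnear p hp)).2
  have h3 := (abs_le.1 (hnear f hf.1)).1
  have h4 := hf.1 (rv fun i => ⌊(n : ℝ) * w0 i⌋)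
  have h5 : (n : ℝ) * pr p w0 ≤ n * dt e g := mul_le_mul_of_nonneg_left h1 (Nat.cast_nonneg n)
  have h6 : 4 * R < n * pr f w0 - n * dt e g := by linarith [mul_sub (n : ℝ) (pr f w0) (dt e g)]
  linarith

/-- two lattice directions with an extreme point in between -/
theorem Su.no_share (h : Su u) {g x w w' : Fin 2 → ℝ} (hg : g ∈ (Po u).extremePoints ℝ)
    (hx : x ≠ 0) (hw : ∀ p ∈ Po u, pr p w = u w → 0 < dt p g)
    (hw' : ∀ p ∈ Po u, pr p w' = u w' → 0 < dt g p)
    (hpq : ∀ p ∈ Po u, ∀ q ∈ Po u, pr p w = u w → pr q w' = u w' → 0 < dt p q) :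
    NoShare u w x ∨ NoShare u w' x := by
  by_contra hcon
  push Not at hcon
  obtain ⟨h1, h2⟩ := hcon
  unfold NoShare at h1 h2
  push Not at h1 h2
  obtain ⟨p, hp, hpx, hpw⟩ := h.supp x w h1
  obtain ⟨q, hq, hqx, hqw⟩ := h.supp x w' h2
  have hpg := hw p hp hpw
  have hgq := hw' q hq hqw
  have hd := hpq p hp q hq hpw hqw
  have hg0 : g ≠ 0 := by
    rintro rfl
    simp [dt] at hpg
  have hc := comb p q g hd.ne'
  have h3 := hg.1 x
  have h4 : pr g x = (dt g q / dt p q) * u x + (dt p g / dt p q) * u x := by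
    conv_lhs => rw [hc]
    rw [pr_add_left, pr_smul_left, pr_smul_left, hpx, hqx]
  rw [h4, ← add_mul] at h3
  have hux := h.pos x hx
  have h5 : dt g q / dt p q + dt p g / dt p q ≤ 1 := by
    by_contra hh
    push Not at hh
    have := mul_lt_mul_of_pos_right hh hux
    linarith
  have h6 := h.tri hg hp hq (div_pos hgq hd) (div_pos hpg hd) h5 hc hg0
  rw [h6.1] at hpg
  simp [dt, mul_comm] at hpg

/-- in a half plane the determinant compares the slopes -/
theorem dt_half (a p q : Fin 2 → ℝ) (ha : a 0 ^ 2 + a 1 ^ 2 = 1) :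
    dt p q = pr p a * dt a q - pr q a * dt a p := by
  have : (a 0 ^ 2 + a 1 ^ 2) * dt p q = pr p a * dt a q - pr q a * dt a p := by
    simp only [dt, pr]; ring
  rw [← this, ha, one_mul]

theorem dt_pos_iff {a p q : Fin 2 → ℝ} (ha : a 0 ^ 2 + a 1 ^ 2 = 1) (hp : 0 < pr p a)
    (hq : 0 < pr q a) : 0 < dt p q ↔ dt a p / pr p a < dt a q / pr q a := by
  rw [dt_half a p q ha, div_lt_div_iff₀ hp hq]
  constructor <;> intro h <;> linarith [mul_comm (dt a p) (pr q a), mul_comm (dt a q) (pr p a)]

/-- the slope is injective on the extreme points -/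
theorem Su.inj (h : Su u) {a p q : Fin 2 → ℝ} (ha : a 0 ^ 2 + a 1 ^ 2 = 1) (hp : 0 < pr p a)
    (hq : 0 < pr q a) (hpE : p ∈ (Po u).extremePoints ℝ) (hqE : q ∈ (Po u).extremePoints ℝ)
    (hs : dt a p / pr p a = dt a q / pr q a) : p = q := by
  have hk : dt a q = pr q a / pr p a * dt a p := by
    rw [div_eq_div_iff hp.ne' hq.ne'] at hs
    field_simp
    linarith
  have hqp : q = (pr q a / pr p a) • p := by
    have h1 : pr q a = pr q a / pr p a * pr p a := by field_simp
    -- coordinates from `pr . a` and `dt a .`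
    have c0 : ∀ v : Fin 2 → ℝ, v 0 = a 0 * pr v a - a 1 * dt a v := by
      intro v
      have : a 0 * pr v a - a 1 * dt a v = (a 0 ^ 2 + a 1 ^ 2) * v 0 := by
        simp only [dt, pr]; ring
      rw [this, ha, one_mul]
    have c1 : ∀ v : Fin 2 → ℝ, v 1 = a 1 * pr v a + a 0 * dt a v := by
      intro v
      have : a 1 * pr v a + a 0 * dt a v = (a 0 ^ 2 + a 1 ^ 2) * v 1 := by
        simp only [dt, pr]; ring
      rw [this, ha, one_mul]
    funext i
    rw [Pi.smul_apply, smul_eq_mul]
    fin_cases i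
    · show q 0 = _ * p 0
      rw [c0 q, c0 p, hk]
      nth_rewrite 1 [h1]
      ring
    · show q 1 = _ * p 1
      rw [c1 q, c1 p, hk]
      nth_rewrite 1 [h1]
      ring
  have ht : 0 < pr q a / pr p a := div_pos hq hp
  have hp0 : p ≠ 0 := by
    rintro rfl
    simp [pr] at hp
  have hq0 : q ≠ 0 := by
    rintro rfl
    simp [pr] at hq
  rcases lt_trichotomy (pr q a / pr p a) 1 with h1 | h1 | h1
  · exfalso
    refine hq0 (h.ray hqE hpE.1 (t := (pr q a / pr p a)⁻¹) ?_ ?_)
    · exact (one_lt_inv₀ ht).2 h1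
    · rw [hqp, smul_smul]
      conv_rhs => rw [pr_smul_left]
      rw [mul_div_assoc, div_self hp.ne', mul_one, inv_mul_cancel₀ ht.ne', one_smul]
  · rw [h1, one_smul] at hqp
    exact hqp.symm
  · exact absurd (h.ray hpE hqE.1 h1 hqp) hp0

/-- the dichotomy in a half plane -/
theorem Su.many (h : Su u) {a : Fin 2 → ℝ} (ha : a 0 ^ 2 + a 1 ^ 2 = 1)
    (hinf : {p ∈ (Po u).extremePoints ℝ | 0 < pr p a}.Infinite) (N : ℕ) :
    ∃ w : Fin N → V 2, (∀ i, w i ≠ 0) ∧ ∀ i j, i ≠ j → ∀ x : Fin 2 → ℝ, x ≠ 0 →
      NoShare u (rv (w i)) x ∨ NoShare u (rv (w j)) x := by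
  set E' := {p ∈ (Po u).extremePoints ℝ | 0 < pr p a} with hE'
  set s : (Fin 2 → ℝ) → ℝ := fun p => dt a p / pr p a with hs
  have hinj : Set.InjOn s E' := fun p hp q hq hpq => h.inj ha hp.2 hq.2 hp.1 hq.1 hpq
  obtain ⟨T, hTs, hTc⟩ := (hinf.image hinj).exists_subset_card_eq (2 * N + 1)
  set o := T.orderEmbOfFin hTc with ho
  have hoT : ∀ k, o k ∈ s '' E' := fun k => hTs (Finset.orderEmbOfFin_mem T hTc k)
  choose e he hse using hoT
  have hlt : ∀ i j : Fin (2 * N + 1), i < j → 0 < dt (e i) (e j) := by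
    intro i j hij
    rw [dt_pos_iff ha (he i).2 (he j).2]
    have h1 : s (e i) < s (e j) := by
      rw [hse, hse]
      exact o.strictMono hij
    exact h1
  have hb : ∀ i : Fin N, ∃ w : V 2, ∀ p ∈ Po u, pr p (rv w) = u (rv w) →
      0 < dt (e ⟨2 * i, by omega⟩) p ∧ 0 < dt p (e ⟨2 * i + 2, by omega⟩) := by
    intro i
    exact h.between (he ⟨2 * i, by omega⟩).1 (he ⟨2 * i + 1, by omega⟩).1
      (he ⟨2 * i + 2, by omega⟩).1 (hlt _ _ (by simp [Fin.lt_def])) (hlt _ _ (by simp [Fin.lt_def]))
      (hlt _ _ (by simp [Fin.lt_def]))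
  choose w hw using hb
  -- the cones are in the half plane
  have hpa : ∀ i : Fin N, ∀ p ∈ Po u, pr p (rv (w i)) = u (rv (w i)) → 0 < pr p a := by
    intro i p hp hpw
    obtain ⟨h1, h2⟩ := hw i p hp hpw
    have h3 := hlt ⟨2 * i, by omega⟩ ⟨2 * i + 2, by omega⟩ (by simp [Fin.lt_def])
    rw [comb _ _ p h3.ne', pr_add_left, pr_smul_left, pr_smul_left]
    have h4 := (he ⟨2 * i, by omega⟩).2
    have h5 := (he ⟨2 * i + 2, by omega⟩).2
    positivity
  have hmain : ∀ i j : Fin N, i < j → ∀ x : Fin 2 → ℝ, x ≠ 0 →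
      NoShare u (rv (w i)) x ∨ NoShare u (rv (w j)) x := by
    intro i j hij x hx
    have hij' : (i : ℕ) < j := hij
    -- `s p < s g ≤ s g' < s q`
    have hgg : dt a (e ⟨2 * i + 2, by omega⟩) / pr (e ⟨2 * i + 2, by omega⟩) a
        ≤ dt a (e ⟨2 * j, by omega⟩) / pr (e ⟨2 * j, by omega⟩) a := by
      have h1 : s (e ⟨2 * i + 2, by omega⟩) ≤ s (e ⟨2 * j, by omega⟩) := by
        rw [hse, hse]
        exact o.monotone (by rw [Fin.le_def]; show 2 * (i : ℕ) + 2 ≤ 2 * j; omega)
      exact h1
    have hp1 : ∀ p ∈ Po u, pr p (rv (w i)) = u (rv (w i)) →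
        dt a p / pr p a < dt a (e ⟨2 * i + 2, by omega⟩) / pr (e ⟨2 * i + 2, by omega⟩) a := by
      intro p hp hpw
      rw [← dt_pos_iff ha (hpa i p hp hpw) (he _).2]
      exact (hw i p hp hpw).2
    have hq1 : ∀ q ∈ Po u, pr q (rv (w j)) = u (rv (w j)) →
        dt a (e ⟨2 * j, by omega⟩) / pr (e ⟨2 * j, by omega⟩) a < dt a q / pr q a := by
      intro q hq hqw
      rw [← dt_pos_iff ha (he _).2 (hpa j q hq hqw)]
      exact (hw j q hq hqw).1
    refine h.no_share (g := e ⟨2 * i + 2, by omega⟩) (he _).1 hx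
      (fun p hp hpw => (hw i p hp hpw).2) ?_ ?_
    · intro q hq hqw
      rw [dt_pos_iff ha (he _).2 (hpa j q hq hqw)]
      exact hgg.trans_lt (hq1 q hq hqw)
    · intro p hp q hq hpw hqw
      rw [dt_pos_iff ha (hpa i p hp hpw) (hpa j q hq hqw)]
      exact (hp1 p hp hpw).trans (hgg.trans_lt (hq1 q hq hqw))
  refine ⟨w, ?_, ?_⟩
  · intro i hi
    have h1 := hw i 0 h.zero_mem (by
      rw [hi]
      have h2 : u (rv (0 : V 2)) = 0 := by
        have h3 : rv (0 : V 2) = 0 := by
          funext k
          simp [rv]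
        have := h.smul 0 le_rfl 0
        rw [zero_smul, zero_mul] at this
        rw [h3, this]
      rw [h2]
      simp [pr])
    simp [dt] at h1
  · intro i j hij x hx
    rcases lt_or_gt_of_ne hij with h1 | h1
    · exact hmain i j h1 x hx
    · exact (hmain j i h1 x hx).symm

/-- **block I1**: a positive sublinear function on the plane is a maximum of finitely many linear
functionals, or for every `N` there are `N` lattice directions without common neighbours -/
theorem Su.dichotomy (h : Su u) :
    (∃ F : Finset (Fin 2 → ℝ), (∀ p ∈ F, ∀ x, pr p x ≤ u x) ∧ ∀ x, ∃ p ∈ F, pr p x = u x) ∨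
    ∀ N : ℕ, ∃ w : Fin N → V 2, (∀ i, w i ≠ 0) ∧ ∀ i j, i ≠ j → ∀ x : Fin 2 → ℝ, x ≠ 0 →
      NoShare u (rv (w i)) x ∨ NoShare u (rv (w j)) x := by
  by_cases hfin : ((Po u).extremePoints ℝ).Finite
  · left
    refine ⟨hfin.toFinset, ?_, ?_⟩
    · intro p hp x
      rw [Set.Finite.mem_toFinset] at hp
      exact hp.1 x
    · intro x
      obtain ⟨p, hp, hpx⟩ := h.ext x
      exact ⟨p, by rwa [Set.Finite.mem_toFinset], hpx⟩
  · right
    have hcov : (Po u).extremePoints ℝ ⊆ {0} ∪
        (({p ∈ (Po u).extremePoints ℝ | 0 < pr p ![1, 0]} ∪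
          {p ∈ (Po u).extremePoints ℝ | 0 < pr p ![-1, 0]}) ∪
        ({p ∈ (Po u).extremePoints ℝ | 0 < pr p ![0, 1]} ∪
          {p ∈ (Po u).extremePoints ℝ | 0 < pr p ![0, -1]})) := by
      intro p hp
      by_cases hp0 : p = 0
      · exact Or.inl hp0
      · right
        by_cases h0 : p 0 = 0
        · right
          have h1 : p 1 ≠ 0 := by
            intro h1
            apply hp0
            funext i
            fin_cases i
            · exact h0
            · exact h1
          rcases lt_or_gt_of_ne h1 with h2 | h2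
          · right
            refine ⟨hp, ?_⟩
            simp only [pr, Matrix.cons_val_zero, Matrix.cons_val_one]
            linarith
          · left
            refine ⟨hp, ?_⟩
            simp only [pr, Matrix.cons_val_zero, Matrix.cons_val_one]
            linarith
        · left
          rcases lt_or_gt_of_ne h0 with h2 | h2
          · right
            refine ⟨hp, ?_⟩
            simp only [pr, Matrix.cons_val_zero, Matrix.cons_val_one]
            linarith
          · left
            refine ⟨hp, ?_⟩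
            simp only [pr, Matrix.cons_val_zero, Matrix.cons_val_one]
            linarith
    by_contra hno
    apply hfin
    refine Set.Finite.subset ?_ hcov
    have hall : ∀ a : Fin 2 → ℝ, a 0 ^ 2 + a 1 ^ 2 = 1 →
        {p ∈ (Po u).extremePoints ℝ | 0 < pr p a}.Finite := by
      intro a ha
      by_contra hinf
      exact hno fun N => h.many ha hinf N
    exact (Set.finite_singleton 0).union
      (((hall _ (by simp)).union (hall _ (by simp))).union
        ((hall _ (by simp)).union (hall _ (by simp))))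

end Pool.Agent.Helper87.PG
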